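import Pool.Agent.W457.T5

/-!
# Nilpotent thickenings and the resolution property

For a flat affine group scheme `G = Spec A` over a noetherian ring `R`, quasi-coherent sheaves on
the classifying stack `B_R G` are the comodules over the Hopf algebra `A`; a sheaf is of finite
type (locally free of finite rank) if and only if the underlying `R`-module is finitely generated
(finitely generated projective).

Over every artinian local ring `R` which is not a field and whose residue field `κ` has
characteristic zero (for instance over the dual numbers `κ[ε]`) we exhibit a smooth affine group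
scheme `G` such that `B_κ G₀` has the resolution property and its nilpotent thickening `B_R G`
does not have it. For the dual numbers the group is the one considered by Mathew: the push-out of
the Heisenberg group along `x ↦ 1 + ε x`.
-/

set_option autoImplicit false

open scoped TensorProduct
open IsLocalRing Pool.Agent.W457

namespace Pool.Agent.Results.MP_5c73b4_ag.NoResolutionBG

universe u

/-- The resolution property of the classifying stack `B_R G`, `G = Spec A`, in terms of
comodules: every `A`-comodule that is finitely generated over `R` is a quotient (as a comodule) of
an `A`-comodule that is finitely generated projective over `R`. -/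
def HasResolutionProperty (R : Type u) [CommRing R] (A : Type u) [CommRing A]
    [HopfAlgebra R A] : Prop :=
  ∀ (M : Type u) [AddCommGroup M] [Module R M] [Module.Finite R M] (ρ : Coaction R A M),
    ∃ (V : Type u) (_ : AddCommGroup V) (_ : Module R V) (_ : Module.Finite R V)
      (_ : Module.Projective R V) (σ : Coaction R A V) (f : V →ₗ[R] M),
      Function.Surjective f ∧ ρ.map ∘ₗ f = f.rTensor A ∘ₗ σ.map

lemma hasResolutionProperty_field (k : Type u) [Field k] (A : Type u) [CommRing A]
    [HopfAlgebra k A] : HasResolutionProperty k A := by
  intro M _ _ _ ρ
  exact ⟨M, inferInstance, inferInstance, inferInstance, inferInstance, ρ, LinearMap.id,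
    Function.surjective_id, by simp⟩

lemma exists_eps (R : Type u) [CommRing R] [IsArtinianRing R] [IsLocalRing R]
    (hR : ¬ IsField R) : ∃ e : R, e ≠ 0 ∧ e * e = 0 := by
  by_contra hcon
  push Not at hcon
  apply hR
  have : IsReduced R := by
    rw [isReduced_iff_pow_one_lt 2 one_lt_two]
    intro x hx
    by_contra hne
    exact hcon x hne (by rw [← sq, hx])
  exact IsArtinianRing.isField_of_isReduced_of_isLocalRing R

theorem result (R : Type u) [CommRing R] [IsArtinianRing R] [IsLocalRing R]
    (hR : ¬ IsField R) [CharZero (ResidueField R)] :
    ∃ (A : Type u) (_ : CommRing A) (_ : HopfAlgebra R A),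
      Algebra.Smooth R A ∧
      HasResolutionProperty (ResidueField R) (ResidueField R ⊗[R] A) ∧
      ¬ HasResolutionProperty R A := by
  obtain ⟨e, he0, he⟩ := exists_eps R hR
  let _ : Eps R := ⟨e, he⟩
  have hem : (Eps.e : R) ∈ maximalIdeal R := by
    rw [mem_maximalIdeal]
    intro hu
    exact he0 (hu.mul_left_eq_zero.1 he)
  refine ⟨GA R, inferInstance, inferInstance, inferInstance,
    hasResolutionProperty_field _ _, fun h => ?_⟩
  obtain ⟨V, _, _, _, _, σ, f, hf, hc⟩ := h _ (char hem)
  exact no_surjection hem he0 σ f hc hf

end Pool.Agent.Results.MP_5c73b4_ag.NoResolutionBG
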